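import Pool.Agent.MWV.Stmts

/-!
# MWV, row GTR: `Gd` for an inner part
-/

namespace Pool.Agent.MWV.H27

theorem lgt_heavy {u : List ℕ} (h : ∀ a ∈ u, a % 3 = 0) : lgt u = [] := by
  unfold lgt
  rw [List.filter_eq_nil_iff]
  intro a ha
  simp [h a ha]

theorem lgt_in {u1 ν u2 : List ℕ} (h : ∀ a ∈ u1 ++ u2, a % 3 = 0) :
    lgt (u1 ++ (ν ++ u2)) = lgt ν := by
  have h1 : lgt u1 = [] := lgt_heavy (fun a ha => h a (List.mem_append_left _ ha))
  have h2 : lgt u2 = [] := lgt_heavy (fun a ha => h a (List.mem_append_right _ ha))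
  unfold lgt at h1 h2 ⊢
  rw [List.filter_append, List.filter_append, h1, h2, List.append_nil, List.nil_append]

theorem rp_mono {N : ℕ} {S : List ℕ → List ℕ → Prop} {p q p' q' u v : List ℕ}
    (hp : ∀ a ∈ p, a % 3 ≠ 0 → a ∈ p') (hq : ∀ a ∈ q, a % 3 ≠ 0 → a ∈ q')
    (hv : ∀ a ∈ v, a ∈ u) (h : Rp N S p q u) : Rp N S p' q' v := by
  intro c hc hc3
  rcases h c (hv c hc) hc3 with h | h
  · exact Or.inl ⟨hq c h.1 hc3, h.2⟩
  · exact Or.inr ⟨hp c h.1 hc3, h.2⟩

theorem lq_mono {N : ℕ} {S : List ℕ → List ℕ → Prop} {p q p' q' u v : List ℕ}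
    (hp : ∀ a ∈ p, a % 3 ≠ 0 → a ∈ p') (hq : ∀ a ∈ q, a % 3 ≠ 0 → a ∈ q')
    (hv : ∀ a ∈ v, a ∈ u) (h : Lq N S p q u) : Lq N S p' q' v := by
  intro c hc hc3
  rcases h c (hv c hc) hc3 with h | h
  · exact Or.inl ⟨hq c h.1 hc3, h.2⟩
  · exact Or.inr ⟨hp c h.1 hc3, h.2⟩

theorem gtr : GtrStmt := by
  intro N S k p q p' q' h u1 ν u2 hp hq hu hG
  have hsub : ∀ a ∈ ν, a ∈ u1 ++ (ν ++ u2) := fun a ha =>
    List.mem_append_right _ (List.mem_append_left _ ha)
  rcases hG with ⟨g1, g2, g3⟩ | g | g | ⟨ν1, ρ, ν2, z, z', g1, g2, g3, g4, g5, g6, g7⟩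
  · rw [lgt_in hu] at g1 g2
    refine Or.inl ⟨g1, g2, ?_⟩
    intro c hc hc3
    rcases g3 c (hsub c hc) hc3 with h1 | h1
    · exact Or.inl (hp c h1 hc3)
    · exact Or.inr (hq c h1 hc3)
  · exact Or.inr (Or.inl (rp_mono hp hq hsub g))
  · exact Or.inr (Or.inr (Or.inl (lq_mono hp hq hsub g)))
  · have hz1 : z ∉ u1 := fun h1 => g2 (hu z (List.mem_append_left _ h1))
    have hz2 : z' ∉ u2 := fun h1 => g3 (hu z' (List.mem_append_right _ h1))
    have e1 : ∃ a, ν1 = u1 ++ a ∧ ν ++ u2 = a ++ z :: (ρ ++ z' :: ν2) := by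
      rcases List.append_eq_append_iff.1 g1 with ⟨a, h1, h2⟩ | ⟨c, h1, h2⟩
      · exact ⟨a, h1, h2⟩
      · cases c with
        | nil =>
          rw [List.append_nil] at h1
          rw [List.nil_append] at h2
          exact ⟨[], by rw [h1, List.append_nil], by rw [← h2, List.nil_append]⟩
        | cons d c =>
          exfalso
          rw [List.cons_append, List.cons.injEq] at h2
          apply hz1
          rw [h1, h2.1]
          simp
    obtain ⟨a, ha, e2⟩ := e1
    have e3 : ν ++ u2 = (a ++ z :: ρ) ++ z' :: ν2 := by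
      rw [e2]
      simp
    have e4 : ∃ b, ν2 = b ++ u2 ∧ ν = (a ++ z :: ρ) ++ z' :: b := by
      rcases List.append_eq_append_iff.1 e3 with ⟨b, h1, h2⟩ | ⟨c, h1, h2⟩
      · exfalso
        apply hz2
        rw [h2]
        simp
      · cases c with
        | nil =>
          exfalso
          rw [List.nil_append] at h2
          apply hz2
          rw [← h2]
          exact List.mem_cons_self
        | cons d c =>
          rw [List.cons_append, List.cons.injEq] at h2
          refine ⟨c, h2.2, ?_⟩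
          rw [h1, h2.1]
    obtain ⟨b, hb, e5⟩ := e4
    refine Or.inr (Or.inr (Or.inr ⟨a, ρ, b, z, z', ?_, g2, g3, g4, g5, ?_, ?_⟩))
    · rw [e5]
      simp
    · apply lq_mono hp hq _ g6
      intro c hc
      rw [ha]
      rcases List.mem_append.1 hc with h1 | h1
      · exact List.mem_append_left _ (List.mem_append_right _ h1)
      · exact List.mem_append_right _ h1
    · apply rp_mono hp hq _ g7
      intro c hc
      rw [hb]
      rcases List.mem_cons.1 hc with h1 | h1
      · rw [h1]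
        exact List.mem_cons_self
      · exact List.mem_cons_of_mem _ (List.mem_append_left _ h1)

end Pool.Agent.MWV.H27
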